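import Pool.Agent.H92.EZ.Targets
import Pool.Agent.H54.LS.Sph

/-!
# Volume of the initial positions near the quadric (row EZV of `ez_modules`)
-/

set_option autoImplicit false

namespace Pool.Agent.H68.EZ

open MeasureTheory Set FourierTransform
open scoped ENNReal NNReal RealInnerProductSpace
open Pool.Agent.H83.LS
open Pool.Agent.H83.G (Z TF Rg Cls pl Lo Bp TP wt ph ctr)
open Pool.Agent.H81.GT (tz xz zt SymE IsX Gf Ua ac Qz Yz Wz Th)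
open Pool.Agent.H92.EZ
open Pool.Agent.H54.LS (jo_last pr_jo jo_norm_sq inner_eq)

private theorem zt_sub' (x x' : EE 3) (t t' : ℝ) :
    zt x t - zt x' t' = zt (x - x') (t - t') := by
  unfold zt
  refine Prod.ext ?_ (Prod.ext ?_ ?_)
  · simp only [Prod.fst_sub, PiLp.sub_apply]
    ring
  · simp only [Prod.snd_sub, Prod.fst_sub]
    ext i
    simp [pr]
  · simp only [Prod.snd_sub, PiLp.sub_apply]
    ring

private theorem Qd_zt (u : EE 3) (t : ℝ) : Qd (zt u t) = ‖u‖ ^ 2 - t ^ 2 := by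
  have h1 := inner_eq u u
  rw [real_inner_self_eq_norm_sq, real_inner_self_eq_norm_sq] at h1
  rw [h1]
  simp only [Qd, zt]
  ring

private theorem ph_zt (u : EE 3) (t : ℝ) (b : Z 2) :
    ph (zt u t) b = t * ((b.1 + b.2.2) / 2) + ⟪u, jo b.2.1 ((b.1 - b.2.2) / 2)⟫ := by
  rw [inner_eq, pr_jo, jo_last]
  simp only [Pool.Agent.H83.G.ph, zt]
  ring

private theorem ph_ldz (η : EE 2) (b : Z 2) :
    ph (ldz η) b = (1 + ‖η‖ ^ 2) * ((b.1 + b.2.2) / 2) +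
      ⟪jo (-((2 : ℝ) • η)) (‖η‖ ^ 2 - 1), jo b.2.1 ((b.1 - b.2.2) / 2)⟫ := by
  rw [inner_eq, pr_jo, jo_last, pr_jo, jo_last]
  simp only [Pool.Agent.H83.G.ph, ldz]
  ring

private theorem norm_om (η : EE 2) : ‖jo (-((2 : ℝ) • η)) (‖η‖ ^ 2 - 1)‖ = 1 + ‖η‖ ^ 2 := by
  have h1 := jo_norm_sq (-((2 : ℝ) • η)) (‖η‖ ^ 2 - 1)
  rw [norm_neg, norm_smul] at h1
  have h2 : ‖jo (-((2 : ℝ) • η)) (‖η‖ ^ 2 - 1)‖ ^ 2 = (1 + ‖η‖ ^ 2) ^ 2 := by
    rw [h1]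
    simp only [Real.norm_ofNat]
    ring
  exact (pow_left_inj₀ (norm_nonneg _) (by positivity) (by norm_num)).mp h2

private theorem abs_Qz (d : Z 2) (η : EE 2) (hη : ‖η‖ ≤ 5) : |Qz d η| ≤ 31 * ‖d‖ := by
  have h0 := norm_nonneg η
  have h1 : |d.1| ≤ ‖d‖ := norm_fst_le d
  have h2 : ‖d.2.1‖ ≤ ‖d‖ := (norm_fst_le d.2).trans (norm_snd_le d)
  have h3 : |d.2.2| ≤ ‖d‖ := (norm_snd_le d.2).trans (norm_snd_le d)
  have h4 : |⟪d.2.1, η⟫| ≤ ‖d‖ * 5 :=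
    (abs_real_inner_le_norm _ _).trans (mul_le_mul h2 hη h0 (norm_nonneg _))
  have h5 : |d.2.2 * ‖η‖ ^ 2| ≤ ‖d‖ * 25 := by
    rw [abs_mul, abs_of_nonneg (sq_nonneg ‖η‖)]
    exact mul_le_mul h3 (by nlinarith) (sq_nonneg _) (norm_nonneg _)
  have h6 : |Qz d η| ≤ |d.1| + |⟪d.2.1, η⟫| + |d.2.2 * ‖η‖ ^ 2| := by
    unfold Qz
    exact (abs_add_le _ _).trans (add_le_add (abs_add_le _ _) le_rfl)
  linarith

/-- the size of `b` -/
private theorem norm_b_le (b : Z 2) :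
    ‖b‖ ≤ |(b.1 + b.2.2) / 2| + ‖jo b.2.1 ((b.1 - b.2.2) / 2)‖ := by
  have h1 := jo_norm_sq b.2.1 ((b.1 - b.2.2) / 2)
  have h0 := norm_nonneg (jo b.2.1 ((b.1 - b.2.2) / 2))
  have h2 : ‖b.2.1‖ ≤ ‖jo b.2.1 ((b.1 - b.2.2) / 2)‖ := by
    apply le_of_sq_le_sq _ h0
    rw [h1]
    nlinarith [sq_nonneg ((b.1 - b.2.2) / 2)]
  have h3 : |(b.1 - b.2.2) / 2| ≤ ‖jo b.2.1 ((b.1 - b.2.2) / 2)‖ := by
    apply abs_le_of_sq_le_sq _ h0
    rw [h1]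
    nlinarith [sq_nonneg ‖b.2.1‖]
  have h4 := abs_nonneg ((b.1 + b.2.2) / 2)
  rw [Prod.norm_def, Prod.norm_def]
  refine max_le ?_ (max_le ?_ ?_)
  · have h5 : b.1 = (b.1 + b.2.2) / 2 + (b.1 - b.2.2) / 2 := by ring
    rw [Real.norm_eq_abs]
    calc |b.1| = |(b.1 + b.2.2) / 2 + (b.1 - b.2.2) / 2| := by rw [← h5]
      _ ≤ |(b.1 + b.2.2) / 2| + |(b.1 - b.2.2) / 2| := abs_add_le _ _
      _ ≤ _ := by linarith
  · linarith
  · have h5 : b.2.2 = (b.1 + b.2.2) / 2 - (b.1 - b.2.2) / 2 := by ring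
    rw [Real.norm_eq_abs]
    calc |b.2.2| = |(b.1 + b.2.2) / 2 - (b.1 - b.2.2) / 2| := by rw [← h5]
      _ ≤ |(b.1 + b.2.2) / 2| + |(b.1 - b.2.2) / 2| := abs_sub _ _
      _ ≤ _ := by linarith

theorem pf_EZV (V2 : T_V2) (V3 : T_V3) (COV : Pool.Agent.H81.GT.T_COV) : T_EZV := by
  have hpi := Real.pi_gt_three
  refine ⟨80000 * Real.pi, by linarith, ?_⟩
  intro R s K M α c b z₀ z₁ η hR hs hs1 hRs hK hKs hM hα hb hnd ht₀ hη hz₁ hdsg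
  have hR0 : 0 < R := by linarith
  have hK0 : 0 < K := by linarith
  have hM0 : 0 < M := by linarith
  obtain ⟨t₀, htd⟩ : ∃ t₀, t₀ = tz z₀ := ⟨_, rfl⟩
  obtain ⟨x₀, hxd⟩ : ∃ x₀, x₀ = xz z₀ := ⟨_, rfl⟩
  have hz₀ : z₀ = zt x₀ t₀ := by
    rw [htd, hxd]
    exact ((COV 2).2.1 z₀).symm
  rw [← htd] at ht₀
  obtain ⟨be0, hbe0⟩ : ∃ be0, be0 = (b.1 + b.2.2) / 2 := ⟨_, rfl⟩
  obtain ⟨be, hbe⟩ : ∃ be, be = jo b.2.1 ((b.1 - b.2.2) / 2) := ⟨_, rfl⟩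
  obtain ⟨μ, hμ⟩ : ∃ μ, μ = M * (R * s⁻¹ ^ 2) := ⟨_, rfl⟩
  obtain ⟨ν, hν⟩ : ∃ ν, ν = M * (R / K) := ⟨_, rfl⟩
  have hμ0 : 0 < μ := by rw [hμ]; positivity
  have hν0 : 0 < ν := by rw [hν]; positivity
  rw [← hμ, ← hν]
  -- translation
  obtain ⟨U, hU⟩ : ∃ U : Set (EE 3), U = {u | |‖u‖ ^ 2 - t₀ ^ 2| ≤ μ ∧
      |α * (‖u‖ ^ 2 - t₀ ^ 2) + ⟪u, be⟫ + (c - t₀ * be0)| ≤ ν} := ⟨_, rfl⟩
  have hvol : volume {x : EE 3 | |Qd (zt x 0 - z₀)| ≤ μ ∧ |sgm α b c (zt x 0 - z₀)| ≤ ν} =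
      volume U := by
    have h1 : {x : EE 3 | |Qd (zt x 0 - z₀)| ≤ μ ∧ |sgm α b c (zt x 0 - z₀)| ≤ ν} =
        (fun x => x + -x₀) ⁻¹' U := by
      ext x
      rw [hU]
      simp only [Set.mem_preimage, Set.mem_ofPred_eq]
      have h2 : zt x 0 - z₀ = zt (x + -x₀) (-t₀) := by
        rw [hz₀, zt_sub', ← sub_eq_add_neg, zero_sub]
      rw [h2, Qd_zt, neg_sq]
      unfold sgm
      rw [Qd_zt, ph_zt, neg_sq, ← hbe, ← hbe0]
      have h3 : α * (‖x + -x₀‖ ^ 2 - t₀ ^ 2) + (-t₀ * be0 + ⟪x + -x₀, be⟫) + c =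
          α * (‖x + -x₀‖ ^ 2 - t₀ ^ 2) + ⟪x + -x₀, be⟫ + (c - t₀ * be0) := by ring
      rw [h3]
    rw [h1, measure_preimage_add_right]
  rw [hvol]
  have hsR : s⁻¹ ^ 2 ≤ R := by
    rw [inv_pow, inv_le_iff_one_le_mul₀ (by positivity)]
    exact hRs
  have ht2 : t₀ ^ 2 ≤ 16 * R ^ 2 := by
    have h1 : t₀ ^ 2 = |t₀| ^ 2 := (sq_abs t₀).symm
    rw [h1]
    have := abs_nonneg t₀
    nlinarith
  have hμR : μ ≤ M * R ^ 2 := by
    rw [hμ]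
    have : R * s⁻¹ ^ 2 ≤ R ^ 2 := by nlinarith
    exact mul_le_mul_of_nonneg_left this hM0.le
  have hnorm : ∀ u ∈ U, ‖u‖ ≤ 5 * M * R := by
    intro u hu
    rw [hU] at hu
    have h1 := (abs_le.mp hu.1).2
    have h2 : ‖u‖ ^ 2 ≤ (5 * M * R) ^ 2 := by
      have h3 : ‖u‖ ^ 2 ≤ 16 * R ^ 2 + M * R ^ 2 := by linarith
      have h4 : 16 * R ^ 2 + M * R ^ 2 ≤ 25 * M ^ 2 * R ^ 2 := by
        have h5 : 16 + M ≤ 25 * M ^ 2 := by nlinarith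
        nlinarith [sq_nonneg R]
      calc ‖u‖ ^ 2 ≤ 25 * M ^ 2 * R ^ 2 := h3.trans h4
        _ = _ := by ring
    exact le_of_sq_le_sq h2 (by positivity)
  have hsq0 : 0 < Real.sqrt K := Real.sqrt_pos.mpr hK0
  have hsqK : Real.sqrt K * Real.sqrt K = K := Real.mul_self_sqrt hK0.le
  have hsq1 : 1 ≤ Real.sqrt K := by
    rw [show (1 : ℝ) = Real.sqrt 1 by simp]
    exact Real.sqrt_le_sqrt hK
  obtain ⟨Q, hQ⟩ : ∃ Q, Q = R ^ 2 * s⁻¹ ^ 2 / Real.sqrt K := ⟨_, rfl⟩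
  have hQ0 : 0 < Q := by rw [hQ]; positivity
  rw [← hQ]
  have hpi0 := Real.pi_pos
  by_cases hc1 : s ^ 2 / (4000 * Real.sqrt K) ≤ |α|
  · -- `α` is not small
    have hα0 : 0 < |α| := lt_of_lt_of_le (by positivity) hc1
    have h1 : U ⊆ {x : EE 3 | ‖x‖ ≤ 5 * M * R ∧
        |α * ‖x‖ ^ 2 + ⟪x, be⟫ + (c - t₀ * be0 - α * t₀ ^ 2)| ≤ ν} := by
      intro u hu
      refine ⟨hnorm u hu, ?_⟩
      rw [hU] at hu
      have h2 : α * ‖u‖ ^ 2 + ⟪u, be⟫ + (c - t₀ * be0 - α * t₀ ^ 2) =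
          α * (‖u‖ ^ 2 - t₀ ^ 2) + ⟪u, be⟫ + (c - t₀ * be0) := by ring
      rw [h2]
      exact hu.2
    refine (measure_mono h1).trans ((V2 α _ ν (5 * M * R) be (abs_pos.mp hα0) hν0.le
      (by positivity)).trans (ENNReal.ofReal_le_ofReal ?_))
    rw [div_le_iff₀ hα0]
    have h2 : 4 * Real.pi * (5 * M * R) * ν =
        80000 * Real.pi * M ^ 2 * Q * (s ^ 2 / (4000 * Real.sqrt K)) := by
      rw [hQ, hν]
      have h3 : R / K = R / (Real.sqrt K * Real.sqrt K) := by rw [hsqK]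
      rw [h3]
      field_simp
      ring
    rw [h2]
    exact mul_le_mul_of_nonneg_left hc1 (by positivity)
  rw [not_le] at hc1
  by_cases hc2 : K < 16
  · -- `K` is small
    have h1 : U ⊆ {x : EE 3 | ‖x‖ ≤ 5 * M * R ∧
        |1 * ‖x‖ ^ 2 + ⟪x, (0 : EE 3)⟫ + -t₀ ^ 2| ≤ μ} := by
      intro u hu
      refine ⟨hnorm u hu, ?_⟩
      rw [hU] at hu
      have h2 : 1 * ‖u‖ ^ 2 + ⟪u, (0 : EE 3)⟫ + -t₀ ^ 2 = ‖u‖ ^ 2 - t₀ ^ 2 := by
        rw [inner_zero_right]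
        ring
      rw [h2]
      exact hu.1
    refine (measure_mono h1).trans ((V2 1 _ μ (5 * M * R) 0 one_ne_zero hμ0.le
      (by positivity)).trans (ENNReal.ofReal_le_ofReal ?_))
    rw [abs_one, div_one]
    have h4 : Real.sqrt K ≤ 4 := by
      rw [show (4 : ℝ) = Real.sqrt 16 by
        rw [show (16 : ℝ) = 4 ^ 2 by norm_num, Real.sqrt_sq (by norm_num)]]
      exact Real.sqrt_le_sqrt hc2.le
    have h5 : 4 * Real.pi * (5 * M * R) * μ = 20 * Real.pi * M ^ 2 * (Q * Real.sqrt K) := by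
      rw [hμ, hQ]
      field_simp
      ring
    rw [h5]
    have h6 : Q * Real.sqrt K ≤ 4 * Q := by nlinarith
    have h7 : 0 ≤ 20 * Real.pi * M ^ 2 := by positivity
    have h8 : 0 ≤ Real.pi * M ^ 2 * Q := by positivity
    nlinarith [mul_le_mul_of_nonneg_left h6 h7]
  rw [not_lt] at hc2
  -- the linear part
  have hsq4 : 4 ≤ Real.sqrt K := by
    rw [show (4 : ℝ) = Real.sqrt 16 by
      rw [show (16 : ℝ) = 4 ^ 2 by norm_num, Real.sqrt_sq (by norm_num)]]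
    exact Real.sqrt_le_sqrt hc2
  have hs2 : 0 < s ^ 2 := by positivity
  have hα1 : |α| ≤ s ^ 2 / 16000 := by
    refine hc1.le.trans ?_
    exact div_le_div_of_nonneg_left hs2.le (by norm_num) (by linarith)
  have hb2 : 1 / 2 ≤ ‖b‖ := by
    rcases hnd with h1 | h1
    · exfalso
      linarith
    · exact h1
  have hph : |ph (ldz η) b| ≤ 1 / 8 := by
    have h1 : ph (ldz η) b = dsg α b (z₁ - z₀) η + 4 * α * Qz (z₁ - z₀) η := by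
      unfold dsg
      ring
    have h2 : |4 * α * Qz (z₁ - z₀) η| ≤ 1 / 32 := by
      rw [abs_mul, abs_mul]
      have h3 : |(4 : ℝ)| = 4 := by norm_num
      rw [h3]
      have h4 : |Qz (z₁ - z₀) η| ≤ 124 * s⁻¹ ^ 2 := by
        refine (abs_Qz _ η hη).trans ?_
        linarith
      calc 4 * |α| * |Qz (z₁ - z₀) η| ≤ 4 * (s ^ 2 / 16000) * (124 * s⁻¹ ^ 2) := by
            gcongr
        _ = 496 / 16000 := by
            field_simp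
            norm_num
        _ ≤ _ := by norm_num
    have h3 : 1 / K ≤ 1 / 16 := one_div_le_one_div_of_le (by norm_num) hc2
    rw [h1]
    refine (abs_add_le _ _).trans ?_
    linarith
  have hbe2 : 3 / 16 ≤ ‖be‖ := by
    have h1 := ph_ldz η b
    rw [← hbe0, ← hbe] at h1
    have h2 : |⟪jo (-((2 : ℝ) • η)) (‖η‖ ^ 2 - 1), be⟫| ≤ (1 + ‖η‖ ^ 2) * ‖be‖ := by
      rw [← norm_om η]
      exact abs_real_inner_le_norm _ _
    have h3 : (1 + ‖η‖ ^ 2) * |be0| ≤ 1 / 8 + (1 + ‖η‖ ^ 2) * ‖be‖ := by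
      have h4 : (1 + ‖η‖ ^ 2) * |be0| = |(1 + ‖η‖ ^ 2) * be0| := by
        rw [abs_mul, abs_of_nonneg (show (0 : ℝ) ≤ 1 + ‖η‖ ^ 2 by positivity)]
      rw [h4]
      have h5 : (1 + ‖η‖ ^ 2) * be0 =
          ph (ldz η) b - ⟪jo (-((2 : ℝ) • η)) (‖η‖ ^ 2 - 1), be⟫ := by
        rw [h1]
        ring
      rw [h5]
      refine (abs_sub _ _).trans ?_
      linarith
    have h4 : |be0| ≤ 1 / 8 + ‖be‖ := by
      have h5 : (1 + ‖η‖ ^ 2) * |be0| ≤ (1 + ‖η‖ ^ 2) * (1 / 8 + ‖be‖) := by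
        nlinarith [sq_nonneg ‖η‖]
      exact le_of_mul_le_mul_left h5 (by positivity)
    have h5 := norm_b_le b
    rw [← hbe0, ← hbe] at h5
    linarith
  have hbe0' : 0 < ‖be‖ := by linarith
  have h1 : U ⊆ {x : EE 3 | |‖x‖ ^ 2 - t₀ ^ 2| ≤ μ ∧
      |⟪x, be⟫ + (c - t₀ * be0)| ≤ 2 * M * R / Real.sqrt K} := by
    intro u hu
    rw [hU] at hu
    refine ⟨hu.1, ?_⟩
    have h2 : ⟪u, be⟫ + (c - t₀ * be0) =
        (α * (‖u‖ ^ 2 - t₀ ^ 2) + ⟪u, be⟫ + (c - t₀ * be0)) - α * (‖u‖ ^ 2 - t₀ ^ 2) := by ring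
    rw [h2]
    refine (abs_sub _ _).trans ?_
    have h3 : |α * (‖u‖ ^ 2 - t₀ ^ 2)| ≤ M * R / Real.sqrt K := by
      rw [abs_mul]
      calc |α| * |‖u‖ ^ 2 - t₀ ^ 2| ≤ (s ^ 2 / (4000 * Real.sqrt K)) * μ :=
            mul_le_mul hc1.le hu.1 (abs_nonneg _) (by positivity)
        _ = (M * R / Real.sqrt K) / 4000 := by
            rw [hμ]
            field_simp
        _ ≤ M * R / Real.sqrt K := by
            have : 0 ≤ M * R / Real.sqrt K := by positivity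
            linarith
    have h4 : ν ≤ M * R / Real.sqrt K := by
      rw [hν, ← mul_div_assoc]
      apply div_le_div_of_nonneg_left (by positivity) hsq0
      nlinarith
    have h5 : 2 * M * R / Real.sqrt K = M * R / Real.sqrt K + M * R / Real.sqrt K := by ring
    rw [h5]
    exact add_le_add (hu.2.trans h4) h3
  refine (measure_mono h1).trans ((V3 (t₀ ^ 2) μ _ (2 * M * R / Real.sqrt K) be
    (norm_pos_iff.mp hbe0') hμ0.le (by positivity)).trans (ENNReal.ofReal_le_ofReal ?_))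
  rw [div_le_iff₀ hbe0']
  have h2 : 4 * Real.pi * μ * (2 * M * R / Real.sqrt K) = 8 * Real.pi * M ^ 2 * Q := by
    rw [hμ, hQ]
    field_simp
    ring
  rw [h2]
  have h3 : 0 ≤ Real.pi * M ^ 2 * Q := by positivity
  nlinarith

end Pool.Agent.H68.EZ
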